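import Mathlib.Topology.Sheaves.Presheaf
import Mathlib.Tactic.Monotonicity.Lemmas
import Mathlib.Combinatorics.SimpleGraph.Basic
import Mathlib.RingTheory.PiTensorProduct
import Mathlib.Probability.Distributions.Gaussian.Multivariate
import Mathlib.Topology.UniformSpace.Uniformizable

-- ======== part 0: formerly Pool.Agent.MP_df0aa7_co.h57.Chi
section MrgPart0

/-! Taylor bounds for `z ↦ (m - z ^ 2)₊ ^ 5`. -/

set_option autoImplicit false

namespace Pool.Agent.MP_df0aa7_co.h57

theorem pos_deriv (k : ℕ) (t : ℝ) :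
    HasDerivAt (fun t : ℝ => max t 0 ^ (k + 2)) (((k : ℝ) + 2) * max t 0 ^ (k + 1)) t := by
  refine hasDerivAt_of_hasDerivAt_of_ne' (x := 0)
    (g := fun t => ((k : ℝ) + 2) * max t 0 ^ (k + 1)) (fun y hy => ?_) (by fun_prop) (by fun_prop) t
  rcases hy.lt_or_gt with h | h
  · rw [max_eq_right h.le, zero_pow (by omega), mul_zero]
    refine (hasDerivAt_const y (0 : ℝ)).congr_of_eventuallyEq ?_
    filter_upwards [gt_mem_nhds h] with z hz
    rw [max_eq_right hz.le, zero_pow (by omega)]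
  · rw [max_eq_left h.le]
    refine ((hasDerivAt_pow (k + 2) y).congr_deriv (by simp)).congr_of_eventuallyEq ?_
    filter_upwards [lt_mem_nhds h] with z hz
    rw [max_eq_left hz.le]

theorem up {g g' : ℝ → ℝ} {L : ℝ} {k : ℕ} (hL : 0 ≤ L) (h0 : g 0 = 0)
    (hd : ∀ t, HasDerivAt g (g' t) t) (hb : ∀ t, |g' t| ≤ L * |t| ^ k) (t : ℝ) :
    |g t| ≤ L * |t| ^ (k + 1) := by
  have := (convex_uIcc (0 : ℝ) t).norm_image_sub_le_of_norm_hasDerivWithin_le (C := L * |t| ^ k)
    (fun s _ => (hd s).hasDerivWithinAt) (fun s hs => (hb s).trans (by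
      have := Set.abs_sub_left_of_mem_uIcc hs
      simp only [sub_zero] at this
      gcongr)) Set.left_mem_uIcc Set.right_mem_uIcc
  simpa [h0, pow_succ, mul_assoc] using this

theorem sh {f f' : ℝ → ℝ} (h : ∀ t, HasDerivAt f (f' t) t) (z t : ℝ) :
    HasDerivAt (fun t => f (z + t)) (f' (z + t)) t := (h (z + t)).comp_const_add z t

theorem tay2 {f0 f1 f2 : ℝ → ℝ} {L : ℝ} (hL : 0 ≤ L) (h0 : ∀ t, HasDerivAt f0 (f1 t) t)
    (h1 : ∀ t, HasDerivAt f1 (f2 t) t) (hb : ∀ t, |f2 t| ≤ L) (z t : ℝ) :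
    |f0 (z + t) - (f0 z + f1 z * t)| ≤ L * |t| ^ 2 := by
  refine up (g := fun t => f0 (z + t) - (f0 z + f1 z * t)) (g' := fun t => f1 (z + t) - f1 z)
    hL (by simp) (fun t => ?_) (fun t => ?_) t
  · exact ((sh h0 z t).sub (((hasDerivAt_id t).const_mul _).const_add _)).congr_deriv (by simp)
  · exact up (g := fun t => f1 (z + t) - f1 z) (k := 0) hL (by simp)
      (fun t => (sh h1 z t).sub_const _) (fun t => by simpa using hb _) t

theorem tay3 {f0 f1 f2 f3 : ℝ → ℝ} {L : ℝ} (hL : 0 ≤ L) (h0 : ∀ t, HasDerivAt f0 (f1 t) t)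
    (h1 : ∀ t, HasDerivAt f1 (f2 t) t) (h2 : ∀ t, HasDerivAt f2 (f3 t) t)
    (hb : ∀ t, |f3 t| ≤ L) (z t : ℝ) :
    |f0 (z + t) - (f0 z + f1 z * t + f2 z / 2 * t ^ 2)| ≤ L * |t| ^ 3 := by
  refine up (g := fun t => f0 (z + t) - (f0 z + f1 z * t + f2 z / 2 * t ^ 2))
    hL (by simp) (fun t => ?_) (tay2 hL h1 h2 hb z) t
  exact ((sh h0 z t).sub ((((hasDerivAt_id t).const_mul _).const_add _).add
    ((hasDerivAt_pow 2 t).const_mul _))).congr_deriv (by simp; ring)

theorem tay4 {f0 f1 f2 f3 f4 : ℝ → ℝ} {L : ℝ} (hL : 0 ≤ L) (h0 : ∀ t, HasDerivAt f0 (f1 t) t)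
    (h1 : ∀ t, HasDerivAt f1 (f2 t) t) (h2 : ∀ t, HasDerivAt f2 (f3 t) t)
    (h3 : ∀ t, HasDerivAt f3 (f4 t) t) (hb : ∀ t, |f4 t| ≤ L) (z t : ℝ) :
    |f0 (z + t) - (f0 z + f1 z * t + f2 z / 2 * t ^ 2 + f3 z / 6 * t ^ 3)| ≤ L * |t| ^ 4 := by
  refine up (g := fun t => f0 (z + t) - (f0 z + f1 z * t + f2 z / 2 * t ^ 2 + f3 z / 6 * t ^ 3))
    hL (by simp) (fun t => ?_) (tay3 hL h1 h2 h3 hb z) t
  exact ((sh h0 z t).sub (((((hasDerivAt_id t).const_mul _).const_add _).add
    ((hasDerivAt_pow 2 t).const_mul _)).add ((hasDerivAt_pow 3 t).const_mul _))).congr_deriv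
    (by simp; ring)

theorem dpow (m : ℝ) (k : ℕ) (z : ℝ) : HasDerivAt (fun z : ℝ => max (m - z ^ 2) 0 ^ (k + 2))
    (((k : ℝ) + 2) * max (m - z ^ 2) 0 ^ (k + 1) * (-2 * z)) z :=
  ((pos_deriv k _).comp z ((hasDerivAt_pow 2 z).const_sub m)).congr_deriv (by simp)

theorem mono_le {m : ℝ} (hm : m ≤ 1) (z : ℝ) (i j : ℕ) :
    |z ^ i * max (m - z ^ 2) 0 ^ (j + 1)| ≤ 1 := by
  rcases le_total (m - z ^ 2) 0 with h | h
  · simp [max_eq_right h]
  · rw [max_eq_left h, abs_mul, abs_pow, abs_pow, abs_of_nonneg h]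
    have := sq_nonneg z
    exact mul_le_one₀ (pow_le_one₀ (abs_nonneg _) (sq_le_one_iff_abs_le_one z |>.1 (by linarith)))
      (by positivity) (pow_le_one₀ h (by linarith))

theorem chi {m : ℝ} (hm : m ≤ 1) (b w p a α : ℝ) : ∃ c0 c1 c2 c3 : ℝ, ∀ t : ℝ,
    |(p + 2 * t * a + t ^ 2 * α) * max (m - (b + w * t) ^ 2) 0 ^ 5 -
      (c0 + c1 * t + c2 * t ^ 2 + c3 * t ^ 3)| ≤
      5040 * (|p| * w ^ 4 + 2 * |a| * |w| ^ 3 + |α| * w ^ 2) * t ^ 4 := by
  set u : ℝ → ℝ := fun z => max (m - z ^ 2) 0 with hu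
  set f0 : ℝ → ℝ := fun z => u z ^ 5
  set f1 : ℝ → ℝ := fun z => -10 * (z * u z ^ 4)
  set f2 : ℝ → ℝ := fun z => -10 * u z ^ 4 + 80 * (z ^ 2 * u z ^ 3)
  set f3 : ℝ → ℝ := fun z => 240 * (z * u z ^ 3) - 480 * (z ^ 3 * u z ^ 2)
  set f4 : ℝ → ℝ := fun z => 240 * u z ^ 3 - 2880 * (z ^ 2 * u z ^ 2) + 1920 * (z ^ 4 * u z)
  have h0 : ∀ t, HasDerivAt f0 (f1 t) t := fun t =>
    (dpow m 3 t).congr_deriv (by simp only [f1, u]; push_cast; ring)
  have h1 : ∀ t, HasDerivAt f1 (f2 t) t := fun t =>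
    (((hasDerivAt_id t).mul (dpow m 2 t)).const_mul _).congr_deriv
      (by simp only [f2, u, id]; push_cast; ring)
  have h2 : ∀ t, HasDerivAt f2 (f3 t) t := fun t =>
    (((dpow m 2 t).const_mul _).add
      (((hasDerivAt_pow 2 t).mul (dpow m 1 t)).const_mul _)).congr_deriv
      (by simp only [f3, u]; push_cast; ring)
  have h3 : ∀ t, HasDerivAt f3 (f4 t) t := fun t =>
    ((((hasDerivAt_id t).mul (dpow m 1 t)).const_mul _).sub
      (((hasDerivAt_pow 3 t).mul (dpow m 0 t)).const_mul _)).congr_deriv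
      (by simp only [f4, u, id]; push_cast; ring)
  have b2 : ∀ t, |f2 t| ≤ 5040 := fun t => by
    obtain ⟨a1, a2⟩ := abs_le.1 (show |t ^ 0 * u t ^ 4| ≤ 1 from mono_le hm t 0 3)
    obtain ⟨a3, a4⟩ := abs_le.1 (show |t ^ 2 * u t ^ 3| ≤ 1 from mono_le hm t 2 2)
    exact abs_le.2 ⟨by simp only [f2]; linarith, by simp only [f2]; linarith⟩
  have b3 : ∀ t, |f3 t| ≤ 5040 := fun t => by
    obtain ⟨a1, a2⟩ := abs_le.1 (show |t ^ 1 * u t ^ 3| ≤ 1 from mono_le hm t 1 2)
    obtain ⟨a3, a4⟩ := abs_le.1 (show |t ^ 3 * u t ^ 2| ≤ 1 from mono_le hm t 3 1)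
    exact abs_le.2 ⟨by simp only [f3]; linarith, by simp only [f3]; linarith⟩
  have b4 : ∀ t, |f4 t| ≤ 5040 := fun t => by
    obtain ⟨a1, a2⟩ := abs_le.1 (show |t ^ 0 * u t ^ 3| ≤ 1 from mono_le hm t 0 2)
    obtain ⟨a3, a4⟩ := abs_le.1 (show |t ^ 2 * u t ^ 2| ≤ 1 from mono_le hm t 2 1)
    obtain ⟨a5, a6⟩ := abs_le.1 (show |t ^ 4 * u t ^ 1| ≤ 1 from mono_le hm t 4 0)
    exact abs_le.2 ⟨by simp only [f4]; linarith, by simp only [f4]; linarith⟩
  refine ⟨p * f0 b, p * f1 b * w + 2 * a * f0 b,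
    p * (f2 b / 2) * w ^ 2 + 2 * a * f1 b * w + α * f0 b,
    p * (f3 b / 6) * w ^ 3 + 2 * a * (f2 b / 2) * w ^ 2 + α * f1 b * w, fun t => ?_⟩
  have t2 := tay2 (by norm_num) h0 h1 b2 b (w * t)
  have t3 := tay3 (by norm_num) h0 h1 h2 b3 b (w * t)
  have t4 := tay4 (by norm_num) h0 h1 h2 h3 b4 b (w * t)
  have e : (p + 2 * t * a + t ^ 2 * α) * max (m - (b + w * t) ^ 2) 0 ^ 5 -
      (p * f0 b + (p * f1 b * w + 2 * a * f0 b) * t +
        (p * (f2 b / 2) * w ^ 2 + 2 * a * f1 b * w + α * f0 b) * t ^ 2 +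
        (p * (f3 b / 6) * w ^ 3 + 2 * a * (f2 b / 2) * w ^ 2 + α * f1 b * w) * t ^ 3) =
      p * (f0 (b + w * t) - (f0 b + f1 b * (w * t) + f2 b / 2 * (w * t) ^ 2 +
        f3 b / 6 * (w * t) ^ 3)) +
      2 * t * a * (f0 (b + w * t) - (f0 b + f1 b * (w * t) + f2 b / 2 * (w * t) ^ 2)) +
      t ^ 2 * α * (f0 (b + w * t) - (f0 b + f1 b * (w * t))) := by
    change _ * f0 (b + w * t) - _ = _
    ring
  rw [e]
  refine (abs_add_three _ _ _).trans ?_
  rw [abs_mul, abs_mul, abs_mul (t ^ 2 * α)]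
  refine (add_le_add (add_le_add (mul_le_mul_of_nonneg_left t4 (abs_nonneg _))
    (mul_le_mul_of_nonneg_left t3 (abs_nonneg _)))
    (mul_le_mul_of_nonneg_left t2 (abs_nonneg _))).trans (le_of_eq ?_)
  rw [← Even.pow_abs (by decide : Even 4) t, ← Even.pow_abs (by decide : Even 4) w,
    ← Even.pow_abs (by decide : Even 2) w]
  simp only [abs_mul, abs_pow, abs_two]
  ring

end Pool.Agent.MP_df0aa7_co.h57

end MrgPart0

-- ======== part 1: formerly Pool.Agent.MP_df0aa7_co.h57.Prod
section MrgPart1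

/-! Product measures of symmetric laws with variance one. -/

set_option autoImplicit false

namespace Pool.Agent.MP_df0aa7_co.h57

open MeasureTheory ProbabilityTheory Matrix Function

/-- a bound for the fourth moments -/
noncomputable def M4 : ℝ := 1 + ∫ t, t ^ 4 ∂gaussianReal 0 1

theorem M4_ge : 1 ≤ M4 := le_add_of_nonneg_right (integral_nonneg fun t => by positivity)

/-- symmetric, variance one, bounded fourth moment -/
structure Nice (ν : Measure ℝ) : Prop where
  prob : IsProbabilityMeasure ν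
  neg : MeasurePreserving (fun t : ℝ => -t) ν ν
  int : Integrable (fun t : ℝ => t ^ 4) ν
  two : ∫ t, t ^ 2 ∂ν = 1
  four : ∫ t, t ^ 4 ∂ν ≤ M4

theorem nice_gauss : Nice (gaussianReal 0 1) where
  prob := inferInstance
  neg := ⟨measurable_neg, by simpa using gaussianReal_map_neg (μ := 0) (v := 1)⟩
  int := by
    have := (memLp_id_gaussianReal (μ := 0) (v := 1) 4).integrable_norm_pow (p := 4) (by norm_num)
    simpa [Even.pow_abs (by decide : Even 4)] using this
  two := by
    have := variance_fun_id_gaussianReal (μ := 0) (v := 1)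
    rw [variance_eq_integral measurable_id'.aemeasurable] at this
    simpa using this
  four := le_add_of_nonneg_left zero_le_one

/-- the uniform law on `±1` -/
noncomputable def rad : Measure ℝ := (2⁻¹ : ENNReal) • (Measure.dirac 1 + Measure.dirac (-1))

theorem rad_int (f : ℝ → ℝ) : Integrable f rad :=
  ((integrable_dirac (by simp)).add_measure (integrable_dirac (by simp))).smul_measure (by simp)

theorem rad_eq (f : ℝ → ℝ) : ∫ t, f t ∂rad = (f 1 + f (-1)) / 2 := by
  rw [rad, integral_smul_measure, integral_add_measure (integrable_dirac (by simp))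
    (integrable_dirac (by simp))]
  simp
  ring

theorem nice_rad : Nice rad where
  prob := ⟨by simp [rad, ENNReal.inv_two_add_inv_two]⟩
  neg := ⟨measurable_neg, by
    rw [rad, Measure.map_smul, Measure.map_add _ _ measurable_neg, Measure.map_dirac' measurable_neg,
      Measure.map_dirac' measurable_neg, neg_neg, add_comm]⟩
  int := rad_int _
  two := by rw [rad_eq]; norm_num
  four := by rw [rad_eq]; have := M4_ge; norm_num; linarith

theorem Nice.pw {ν : Measure ℝ} (h : Nice ν) {k : ℕ} (hk : k ≤ 4) :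
    Integrable (fun t : ℝ => t ^ k) ν := by
  have := h.prob
  refine ((integrable_const (1 : ℝ)).add h.int).mono' (by fun_prop) (.of_forall fun t => ?_)
  rw [Real.norm_eq_abs, abs_pow, Pi.add_apply, ← Even.pow_abs (by decide : Even 4)]
  rcases le_total |t| 1 with c | c
  · exact (pow_le_one₀ (abs_nonneg _) c).trans (le_add_of_nonneg_right (by positivity))
  · exact (pow_le_pow_right₀ c hk).trans (le_add_of_nonneg_left zero_le_one)

theorem odd_zero {X : Type} [MeasurableSpace X] {μ : Measure X} {e : X → X}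
    (he : MeasurePreserving e μ μ) {f : X → ℝ} (hf : AEStronglyMeasurable f μ)
    (h : ∀ x, f (e x) = -f x) : ∫ x, f x ∂μ = 0 := by
  have k := integral_map he.measurable.aemeasurable (f := f) (he.map_eq.symm ▸ hf)
  rw [he.map_eq] at k
  simp only [h, integral_neg] at k
  linarith

theorem Nice.cubic {ν : Measure ℝ} (h : Nice ν) (c0 c1 c2 c3 : ℝ) :
    Integrable (fun t : ℝ => c0 + c1 * t + c2 * t ^ 2 + c3 * t ^ 3) ν ∧
      ∫ t, (c0 + c1 * t + c2 * t ^ 2 + c3 * t ^ 3) ∂ν = c0 + c2 := by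
  have := h.prob
  have i0 : Integrable (fun _ : ℝ => c0) ν := integrable_const _
  have i1 : Integrable (fun t : ℝ => c1 * t) ν := by simpa using (h.pw (k := 1) (by omega)).const_mul c1
  have i2 := (h.pw (k := 2) (by omega)).const_mul c2
  have i3 := (h.pw (k := 3) (by omega)).const_mul c3
  refine ⟨((i0.add i1).add i2).add i3, ?_⟩
  rw [integral_add (f := fun t => c0 + c1 * t + c2 * t ^ 2) ((i0.add i1).add i2) i3,
    integral_add (f := fun t => c0 + c1 * t) (i0.add i1) i2, integral_add i0 i1,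
    odd_zero h.neg i1.1 (fun x => by ring), odd_zero h.neg i3.1 (fun x => by ring),
    integral_const_mul, h.two]
  simp

theorem Nice.near {ν : Measure ℝ} (h : Nice ν) {f : ℝ → ℝ} (hf : Continuous f) {c0 c1 c2 c3 K : ℝ}
    (hK : 0 ≤ K) (hb : ∀ t, |f t - (c0 + c1 * t + c2 * t ^ 2 + c3 * t ^ 3)| ≤ K * t ^ 4) :
    |∫ t, f t ∂ν - (c0 + c2)| ≤ K * M4 := by
  obtain ⟨i, e⟩ := h.cubic c0 c1 c2 c3
  have j : Integrable (fun t => f t - (c0 + c1 * t + c2 * t ^ 2 + c3 * t ^ 3)) ν :=
    (h.int.const_mul K).mono' (by fun_prop) (.of_forall hb)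
  rw [← e, ← integral_sub ((j.add i).congr (.of_forall fun t => by simp)) i]
  refine (norm_integral_le_of_norm_le (f := fun t => f t - (c0 + c1 * t + c2 * t ^ 2 + c3 * t ^ 3))
    (h.int.const_mul K) (.of_forall hb)).trans ?_
  rw [integral_const_mul]
  exact mul_le_mul_of_nonneg_left h.four hK

variable {ι : Type} [Fintype ι] [DecidableEq ι]

theorem fub (μ : ι → Measure ℝ) (hμ : ∀ i, IsProbabilityMeasure (μ i)) (ν : Measure ℝ)
    [IsProbabilityMeasure ν] (k : ι) :
    MeasurePreserving (fun p : (ι → ℝ) × ℝ => update p.1 k p.2) ((Measure.pi μ).prod ν)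
      (Measure.pi (update μ k ν)) := by
  have : ∀ i, IsProbabilityMeasure (update μ k ν i) := fun i => by
    rcases eq_or_ne i k with rfl | c
    · rwa [update_self]
    · rw [update_of_ne c]; exact hμ i
  refine ⟨measurable_update', (Measure.pi_eq fun s hs => ?_).symm⟩
  rw [Measure.map_apply measurable_update' (MeasurableSet.univ_pi hs)]
  have e : (fun p : (ι → ℝ) × ℝ => update p.1 k p.2) ⁻¹' Set.univ.pi s =
      (Set.univ.pi (update s k Set.univ)) ×ˢ s k := by
    ext ⟨y, t⟩
    simp only [Set.mem_preimage, Set.mem_univ_pi, Set.mem_prod]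
    refine ⟨fun h => ⟨fun i => ?_, by simpa using h k⟩, fun h i => ?_⟩
    · rcases eq_or_ne i k with rfl | c
      · simp
      · simpa [c] using h i
    · rcases eq_or_ne i k with rfl | c
      · simpa using h.2
      · simpa [c] using h.1 i
  rw [e, Measure.prod_prod, Measure.pi_pi, ← Finset.mul_prod_erase _ _ (Finset.mem_univ k),
    ← Finset.mul_prod_erase _ _ (Finset.mem_univ k), update_self, update_self, measure_univ,
    one_mul, mul_comm]
  congr 1
  exact Finset.prod_congr rfl fun i hi => by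
    rw [update_of_ne (Finset.ne_of_mem_erase hi), update_of_ne (Finset.ne_of_mem_erase hi)]

theorem fub_int (μ : ι → Measure ℝ) (hμ : ∀ i, IsProbabilityMeasure (μ i)) (ν : Measure ℝ)
    [IsProbabilityMeasure ν] (k : ι) {g : (ι → ℝ) → ℝ}
    (hg : Integrable g (Measure.pi (update μ k ν))) :
    Integrable (fun y => ∫ t, g (update y k t) ∂ν) (Measure.pi μ) ∧
      ∫ y, g y ∂Measure.pi (update μ k ν) = ∫ y, ∫ t, g (update y k t) ∂ν ∂Measure.pi μ := by
  have m := fub μ hμ ν k
  have i := (m.integrable_comp hg.1).2 hg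
  refine ⟨i.integral_prod_left, ?_⟩
  rw [← m.map_eq, integral_map m.measurable.aemeasurable (m.map_eq.symm ▸ hg.1)]
  exact integral_prod _ i

theorem flip {μ : ι → Measure ℝ} (hμ : ∀ i, Nice (μ i)) (k : ι) :
    MeasurePreserving (fun (y : ι → ℝ) i => if i = k then -y i else y i) (Measure.pi μ)
      (Measure.pi μ) := by
  have := fun i => (hμ i).prob
  refine measurePreserving_pi μ μ (f := fun i t => if i = k then -t else t) fun i => ?_
  split_ifs
  · exact (hμ i).neg
  · exact MeasurePreserving.id _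

omit [DecidableEq ι] in
theorem int_mul {μ : ι → Measure ℝ} (hμ : ∀ i, Nice (μ i)) (i j : ι) :
    Integrable (fun y : ι → ℝ => y i * y j) (Measure.pi μ) := by
  have := fun i => (hμ i).prob
  have k : ∀ i, MemLp (fun y : ι → ℝ => y i) 2 (Measure.pi μ) := fun i =>
    ((memLp_two_iff_integrable_sq (f := fun t : ℝ => t) (by fun_prop)).2
      ((hμ i).pw (by omega))).comp_measurePreserving (measurePreserving_eval μ i)
  exact (k i).integrable_mul (k j)

/-- the quadratic form -/
def qf (A : Matrix ι ι ℝ) (y : ι → ℝ) : ℝ := y ⬝ᵥ A *ᵥ y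

omit [DecidableEq ι] in
theorem qf_sum (A : Matrix ι ι ℝ) (y : ι → ℝ) : qf A y = ∑ i, ∑ j, A i j * (y i * y j) := by
  simp only [qf, dotProduct, mulVec, Finset.mul_sum]
  exact Finset.sum_congr rfl fun i _ => Finset.sum_congr rfl fun j _ => by ring

omit [DecidableEq ι] in
theorem qf_cont (A : Matrix ι ι ℝ) : Continuous (qf A) := by
  rw [funext (qf_sum A)]
  fun_prop

theorem quad {μ : ι → Measure ℝ} (hμ : ∀ i, Nice (μ i)) (A : Matrix ι ι ℝ) :
    Integrable (qf A) (Measure.pi μ) ∧ ∫ y, qf A y ∂Measure.pi μ = A.trace := by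
  have := fun i => (hμ i).prob
  have i1 := fun i j => (int_mul hμ i j).const_mul (A i j)
  rw [funext (qf_sum A)]
  refine ⟨integrable_finsetSum _ fun i _ => integrable_finsetSum _ fun j _ => i1 i j, ?_⟩
  rw [integral_finsetSum _ fun i _ => integrable_finsetSum _ fun j _ => i1 i j]
  refine Finset.sum_congr rfl fun i _ => ?_
  rw [integral_finsetSum _ fun j _ => i1 i j, Finset.sum_eq_single i (fun j _ c =>
    odd_zero (flip hμ i) (i1 i j).1 fun y => by simp [c]) (by simp), integral_const_mul]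
  have m := measurePreserving_eval μ i
  have k := integral_map m.measurable.aemeasurable (f := fun t : ℝ => t ^ 2)
    (μ := Measure.pi μ) (by fun_prop)
  rw [m.map_eq, (hμ i).two] at k
  simp only [← sq]
  rw [show ∫ y : ι → ℝ, y i ^ 2 ∂Measure.pi μ = 1 from k.symm, mul_one, Matrix.diag_apply]

/-- the sign of a bit -/
def sg (b : Bool) : ℝ := if b then -1 else 1

theorem pi_rad (g : (ι → ℝ) → ℝ) :
    ∫ y, g y ∂Measure.pi (fun _ : ι => rad) =
      (∑ s : ι → Bool, g fun i => sg (s i)) / 2 ^ Fintype.card ι := by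
  have := nice_rad.prob
  have e : Measure.pi (fun _ : ι => rad) = ((2⁻¹ : ENNReal) ^ Fintype.card ι) •
      ∑ s : ι → Bool, Measure.dirac fun i => sg (s i) := by
    classical
    refine Measure.pi_eq fun s hs => ?_
    have h1 : ∀ i, rad (s i) = 2⁻¹ * ∑ b : Bool, (s i).indicator 1 (sg b) := fun i => by
      simp [rad, Measure.dirac_apply' _ (hs i), sg, add_comm, mul_add]
    simp only [h1, Finset.prod_mul_distrib, Finset.prod_const, Finset.card_univ,
      Measure.smul_apply, smul_eq_mul, Measure.finsetSum_apply,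
      Measure.dirac_apply' _ (MeasurableSet.univ_pi hs)]
    rw [Finset.prod_univ_sum, Fintype.piFinset_univ]
    congr 1
    refine Finset.sum_congr rfl fun b _ => ?_
    simp only [Set.indicator_apply, Set.mem_univ_pi, Pi.one_apply]
    rw [Finset.prod_ite_zero]
    simp
  rw [e, integral_smul_measure, integral_finsetSum_measure fun _ _ => integrable_dirac (by simp)]
  simp [div_eq_inv_mul]

end Pool.Agent.MP_df0aa7_co.h57

end MrgPart1

-- ======== part 2: formerly Pool.Agent.MP_df0aa7_co.h57.Key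
section MrgPart2

/-! The key lemma: two positive quadratic forms of random signs are almost positively
correlated. Gaussian case by symmetry, then replacement of one coordinate at a time. -/

set_option autoImplicit false

namespace Pool.Agent.MP_df0aa7_co.h57

open MeasureTheory ProbabilityTheory Matrix Function

variable {ι : Type} [Fintype ι] [DecidableEq ι] {A B : Matrix ι ι ℝ}

omit [DecidableEq ι] in
theorem qf_nonneg (hA : A.PosSemidef) (y : ι → ℝ) : 0 ≤ qf A y := by
  simpa [qf] using hA.dotProduct_mulVec_nonneg y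

omit [DecidableEq ι] in
theorem bil_symm (hA : A.IsHermitian) (y z : ι → ℝ) : y ⬝ᵥ A *ᵥ z = z ⬝ᵥ A *ᵥ y := by
  rw [dotProduct_mulVec, ← mulVec_transpose, ← conjTranspose_eq_transpose_of_trivial, hA.eq,
    dotProduct_comm]

omit [DecidableEq ι] in
theorem qf_add (hA : A.IsHermitian) (y z : ι → ℝ) (t : ℝ) :
    qf A (y + t • z) = qf A y + 2 * t * (z ⬝ᵥ A *ᵥ y) + t ^ 2 * qf A z := by
  simp only [qf, mulVec_add, mulVec_smul, add_dotProduct, dotProduct_add, smul_dotProduct,
    dotProduct_smul, smul_eq_mul, bil_symm hA y z]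
  ring

theorem qf_single (A : Matrix ι ι ℝ) (k : ι) : qf A (Pi.single k 1) = A k k := by
  simp [qf]

/-- the test function -/
noncomputable def gg (A B : Matrix ι ι ℝ) (y : ι → ℝ) : ℝ :=
  (qf A y - A.trace) * max (1 - qf B y) 0 ^ 5

theorem phi_le {q : ℝ} (h : 0 ≤ q) : |max (1 - q) 0 ^ 5| ≤ 1 := by
  rw [abs_of_nonneg (by positivity)]
  exact pow_le_one₀ (le_max_right _ _) (max_le (by linarith) zero_le_one)

theorem int_phi {X : Type} [MeasurableSpace X] [TopologicalSpace X] [OpensMeasurableSpace X]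
    {μ : Measure X} {f q : X → ℝ} (hf : Integrable f μ) (hq : Continuous q) (h : ∀ x, 0 ≤ q x) :
    Integrable (fun x => f x * max (1 - q x) 0 ^ 5) μ :=
  hf.mul_bdd (c := 1) (Continuous.measurable (by fun_prop)).aestronglyMeasurable
    (.of_forall fun x => phi_le (h x))

theorem gg_int {μ : ι → Measure ℝ} (hμ : ∀ i, Nice (μ i)) (hB : B.PosSemidef) :
    Integrable (gg A B) (Measure.pi μ) := by
  have := fun i => (hμ i).prob
  exact int_phi ((quad hμ A).1.sub (integrable_const _)) (qf_cont B) (qf_nonneg hB)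

theorem step (hA : A.PosSemidef) (hB : B.PosSemidef) {ν ν' : Measure ℝ} (h : Nice ν)
    (h' : Nice ν') (k : ι) (y : ι → ℝ) :
    ∫ t, gg A B (update y k t) ∂ν ≤ ∫ t, gg A B (update y k t) ∂ν' + 10080 * M4 *
      ((2 * qf A (update y k 0) + A.trace) * B k k ^ 2 + 2 * (A k k * B k k)) := by
  have e : ∀ t, update y k t = update y k 0 + t • Pi.single k 1 := fun t => by
    ext i
    rcases eq_or_ne i k with rfl | c
    · simp
    · simp [c]
  generalize update y k 0 = z at e
  have hβ : 0 ≤ B k k := hB.diag_nonneg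
  have hα : 0 ≤ A k k := hA.diag_nonneg
  have hT : 0 ≤ A.trace := hA.trace_nonneg
  have hP := qf_nonneg hA z
  have hQ := qf_nonneg hB z
  obtain ⟨w, w0, hw⟩ : ∃ w, 0 ≤ w ∧ w ^ 2 = B k k := ⟨_, Real.sqrt_nonneg _, Real.sq_sqrt hβ⟩
  have cs : (Pi.single k 1 ⬝ᵥ B *ᵥ z) ^ 2 ≤ w ^ 2 * qf B z := by
    have := discrim_le_zero (a := B k k) (b := 2 * (Pi.single k 1 ⬝ᵥ B *ᵥ z)) (c := qf B z)
      fun t => by
        have := qf_nonneg hB (z + t • Pi.single k 1)
        rw [qf_add hB.1, qf_single] at this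
        linarith
    rw [discrim] at this
    rw [hw]
    linarith
  obtain ⟨b, hb, hb'⟩ : ∃ b, b * w = Pi.single k 1 ⬝ᵥ B *ᵥ z ∧ b ^ 2 ≤ qf B z := by
    rcases w0.eq_or_lt with rfl | c
    · exact ⟨0, by nlinarith, by simpa using hQ⟩
    · refine ⟨_ / w, div_mul_cancel₀ _ c.ne', ?_⟩
      rwa [div_pow, div_le_iff₀' (by positivity)]
  have am : 2 * |Pi.single k 1 ⬝ᵥ A *ᵥ z| * w ≤ qf A z * w ^ 2 + A k k := by
    have a1 := qf_nonneg hA (Pi.single k 1 + w • z)
    have a2 := qf_nonneg hA (Pi.single k 1 + (-w) • z)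
    rw [qf_add hA.1, qf_single, bil_symm hA.1] at a1 a2
    rcases abs_cases (Pi.single k 1 ⬝ᵥ A *ᵥ z) with c | c <;> rw [c.1] <;> linarith
  obtain ⟨c0, c1, c2, c3, hc⟩ := chi (m := 1 - qf B z + b ^ 2) (by linarith) b w
    (qf A z - A.trace) (Pi.single k 1 ⬝ᵥ A *ᵥ z) (A k k)
  have hb : ∀ t, |gg A B (update y k t) - (c0 + c1 * t + c2 * t ^ 2 + c3 * t ^ 3)| ≤
      5040 * ((2 * qf A z + A.trace) * B k k ^ 2 + 2 * (A k k * B k k)) * t ^ 4 := fun t => by
    rw [gg, e, qf_add hA.1, qf_add hB.1, qf_single, qf_single, ← hw, ← hb]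
    refine le_trans (le_of_eq ?_) ((hc t).trans ?_)
    · rw [show 1 - (qf B z + 2 * t * (b * w) + t ^ 2 * w ^ 2) =
        1 - qf B z + b ^ 2 - (b + w * t) ^ 2 by ring]
      congr 3
      ring
    · have a1 : |qf A z - A.trace| ≤ qf A z + A.trace := abs_le.2 ⟨by linarith, by linarith⟩
      have a2 := mul_le_mul_of_nonneg_right a1 (pow_nonneg w0 4)
      have a3 := mul_le_mul_of_nonneg_right am (pow_nonneg w0 2)
      rw [abs_of_nonneg w0, abs_of_nonneg hα]
      refine mul_le_mul_of_nonneg_right ?_ (by positivity)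
      linarith
  have hf : Continuous fun t => gg A B (update y k t) := by
    have := qf_cont A
    have := qf_cont B
    unfold gg
    fun_prop
  have n1 := abs_le.1 (h.near hf (by positivity) hb)
  have n2 := abs_le.1 (h'.near hf (by positivity) hb)
  linarith [n1.2, n2.1]

theorem int_upd {μ : ι → Measure ℝ} (hμ : ∀ i, Nice (μ i)) (hA : A.PosSemidef) (k : ι) :
    Integrable (fun y => qf A (update y k 0)) (Measure.pi μ) ∧
      ∫ y, qf A (update y k 0) ∂Measure.pi μ ≤ A.trace := by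
  have e : (fun y => qf A (update y k 0)) =
      qf (of fun i j => if i = k ∨ j = k then 0 else A i j) := by
    ext y
    simp only [qf_sum, of_apply]
    refine Finset.sum_congr rfl fun i _ => Finset.sum_congr rfl fun j _ => ?_
    by_cases a : i = k <;> by_cases b : j = k <;> simp [a, b]
  rw [e, (quad hμ _).2]
  refine ⟨(quad hμ _).1, Finset.sum_le_sum fun i _ => ?_⟩
  simp only [Matrix.diag_apply, of_apply]
  split_ifs
  · exact hA.diag_nonneg
  · rfl

theorem lind (hA : A.PosSemidef) (hB : B.PosSemidef) (T : Finset ι) :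
    ∫ y, gg A B y ∂Measure.pi (fun _ => rad) ≤
      ∫ y, gg A B y ∂Measure.pi (fun i => if i ∈ T then gaussianReal 0 1 else rad) +
        ∑ k ∈ T, 10080 * M4 * (3 * A.trace * B k k ^ 2 + 2 * (A k k * B k k)) := by
  have N : ∀ (T : Finset ι) i, Nice (if i ∈ T then gaussianReal 0 1 else rad) := fun T i => by
    split_ifs
    exacts [nice_gauss, nice_rad]
  induction T using Finset.induction_on with
  | empty => simp
  | insert k T hk ih =>
    have := nice_rad.prob
    have P := fun i => (N T i).prob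
    have e1 : update (fun i => if i ∈ T then gaussianReal 0 1 else rad) k rad =
        fun i => if i ∈ T then gaussianReal 0 1 else rad := by
      rw [update_eq_self_iff, if_neg hk]
    have e2 : update (fun i => if i ∈ T then gaussianReal 0 1 else rad) k (gaussianReal 0 1) =
        fun i => if i ∈ insert k T then gaussianReal 0 1 else rad := by
      ext1 i
      rcases eq_or_ne i k with rfl | c
      · simp
      · simp [c]
    obtain ⟨i1, f1⟩ := fub_int _ P rad k (g := gg A B) (e1.symm ▸ gg_int (N T) hB)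
    obtain ⟨i2, f2⟩ := fub_int _ P (gaussianReal 0 1) k (g := gg A B) (e2.symm ▸ gg_int (N _) hB)
    obtain ⟨i3, f3⟩ := int_upd (N T) hA k
    have i4 := ((((i3.const_mul 2).add (integrable_const A.trace)).mul_const (B k k ^ 2)).add
      (integrable_const (2 * (A k k * B k k)))).const_mul (10080 * M4)
    have k1 := integral_mono i1 (i2.add i4) (step hA hB nice_rad nice_gauss k)
    rw [e1] at f1
    rw [e2] at f2
    rw [integral_add' i2 i4, integral_const_mul, integral_add' (((i3.const_mul 2).add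
      (integrable_const A.trace)).mul_const (B k k ^ 2)) (integrable_const _), integral_mul_const,
      integral_add' (i3.const_mul 2) (integrable_const _), integral_const_mul, ← f1, ← f2] at k1
    simp only [integral_const, probReal_univ, one_smul] at k1
    rw [Finset.sum_insert hk]
    have := M4_ge
    have := mul_le_mul_of_nonneg_left f3 (show 0 ≤ 10080 * M4 * 2 * B k k ^ 2 by positivity)
    linarith

theorem diag_case (hA : ∀ i, 0 ≤ A i i) {l : ι → ℝ} (hl : ∀ i, 0 ≤ l i) :
    ∫ y, gg A (diagonal l) y ∂Measure.pi (fun _ => gaussianReal 0 1) ≤ 0 := by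
  have N : ∀ _ : ι, Nice (gaussianReal 0 1) := fun _ => nice_gauss
  have hB : (diagonal l).PosSemidef := PosSemidef.diagonal hl
  have q : ∀ y, qf (diagonal l) y = ∑ i, l i * y i ^ 2 := fun y => by
    simp only [qf, dotProduct, mulVec_diagonal]
    exact Finset.sum_congr rfl fun i _ => by ring
  have I : ∀ i j, Integrable (fun y : ι → ℝ => A i j * ((y i * y j - if i = j then 1 else 0) *
      max (1 - qf (diagonal l) y) 0 ^ 5)) (Measure.pi fun _ => gaussianReal 0 1) := fun i j =>
    (int_phi ((int_mul N i j).sub (integrable_const _)) (qf_cont _) (qf_nonneg hB)).const_mul _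
  have e : gg A (diagonal l) = fun y => ∑ i, ∑ j, A i j * ((y i * y j - if i = j then 1 else 0) *
      max (1 - qf (diagonal l) y) 0 ^ 5) := by
    ext y
    rw [gg, qf_sum A, trace, ← Finset.sum_sub_distrib, Finset.sum_mul]
    refine Finset.sum_congr rfl fun i _ => ?_
    simp [← mul_assoc, ← Finset.sum_mul, mul_sub]
  rw [e, integral_finsetSum _ fun i _ => integrable_finsetSum _ fun j _ => I i j]
  refine Finset.sum_nonpos fun i _ => ?_
  rw [integral_finsetSum _ fun j _ => I i j, Finset.sum_eq_single i (fun j _ c =>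
    odd_zero (flip N i) (I i j).1 fun y => by
      have : qf (diagonal l) (fun a => if a = i then -y a else y a) = qf (diagonal l) y := by
        rw [q, q]
        exact Finset.sum_congr rfl fun a _ => by split_ifs <;> simp
      simp [c, c.symm, this]) (by simp)]
  have f := (fub_int (fun _ => gaussianReal 0 1) (fun _ => inferInstance) (gaussianReal 0 1) i
    (by rw [update_eq_self]; exact I i i)).2
  rw [update_eq_self] at f
  rw [f]
  refine integral_nonpos fun y => ?_
  obtain ⟨r, R, u⟩ : ∃ r, 0 ≤ r ∧ ∀ t, qf (diagonal l) (update y i t) = r + l i * t ^ 2 :=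
    ⟨∑ a ∈ Finset.univ.erase i, l a * y a ^ 2,
      Finset.sum_nonneg fun a _ => mul_nonneg (hl a) (sq_nonneg _), fun t => by
      rw [q, ← Finset.add_sum_erase _ _ (Finset.mem_univ i), update_self, add_comm]
      exact congrArg (· + _) (Finset.sum_congr rfl fun a ha => by
        rw [update_of_ne (Finset.ne_of_mem_erase ha)])⟩
  simp only [update_self, if_true, u, integral_const_mul]
  have hi := hl i
  obtain ⟨j1, j2⟩ := nice_gauss.cubic (-max (1 - (r + l i)) 0 ^ 5) 0 (max (1 - (r + l i)) 0 ^ 5) 0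
  refine mul_nonpos_of_nonneg_of_nonpos (hA i) ((integral_mono (int_phi (q := fun t => r + l i * t ^ 2)
    ((nice_gauss.cubic (-1) 0 1 0).1.congr (.of_forall fun t => by simp only; ring)) (by fun_prop)
    fun t => by positivity) j1 fun t => ?_).trans (j2.trans (neg_add_cancel _)).le)
  have m : ∀ a b : ℝ, a ≤ b → max (1 - b) 0 ^ 5 ≤ max (1 - a) 0 ^ 5 := fun a b h => by gcongr
  rcases le_total (t ^ 2) 1 with c | c
  · have := m (r + l i * t ^ 2) (r + l i) (by nlinarith)
    nlinarith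
  · have := m (r + l i) (r + l i * t ^ 2) (by nlinarith)
    nlinarith

theorem gauss_case (hA : A.PosSemidef) (hB : B.PosSemidef) :
    ∫ y, gg A B y ∂Measure.pi (fun _ => gaussianReal 0 1) ≤ 0 := by
  set U : Matrix ι ι ℝ := hB.1.eigenvectorUnitary.1 with hU
  have m : (Measure.pi fun _ : ι => gaussianReal 0 1).map (fun z => U *ᵥ z) =
      Measure.pi fun _ : ι => gaussianReal 0 1 := by
    have e : (fun z => U *ᵥ z) =
        WithLp.ofLp ∘ fun x : ι → ℝ => ∑ i, x i • hB.1.eigenvectorBasis i := by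
      ext z i
      simp [hU, mulVec, dotProduct, mul_comm]
    rw [e, ← Measure.map_map (by fun_prop) (by fun_prop),
      ← stdGaussian_eq_map_pi_orthonormalBasis, ← map_pi_eq_stdGaussian,
      Measure.map_map (by fun_prop) (by fun_prop)]
    exact Measure.map_id
  have d : star U * B * U = diagonal hB.1.eigenvalues := by
    simpa [Unitary.conjStarAlgAut_star_apply] using hB.1.conjStarAlgAut_star_eigenvectorUnitary
  have c : ∀ (M : Matrix ι ι ℝ) z, qf M (U *ᵥ z) = qf (star U * M * U) z := fun M z => by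
    rw [qf, qf, ← mulVec_mulVec, ← mulVec_mulVec, dotProduct_mulVec z, star_eq_conjTranspose,
      conjTranspose_eq_transpose_of_trivial, vecMul_transpose]
  have t : (star U * A * U).trace = A.trace := by
    rw [trace_mul_cycle, (Unitary.mem_iff.1 hB.1.eigenvectorUnitary.2).2, one_mul]
  have i := gg_int (A := A) (fun _ => nice_gauss) hB
  rw [← m, integral_map (Continuous.measurable (by fun_prop)).aemeasurable (m.symm ▸ i.1)]
  refine le_trans (le_of_eq ?_) (diag_case (A := star U * A * U)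
    (fun i => (hA.conjTranspose_mul_mul_same U).diag_nonneg) hB.eigenvalues_nonneg)
  simp only [gg, c, d, t]

/-- the key lemma -/
theorem key (hA : A.PosSemidef) (hB : B.PosSemidef) {x : ℝ} (hx : 0 < x) :
    ∑ s : ι → Bool, (qf A (fun i => sg (s i)) - A.trace) *
      max (x - qf B fun i => sg (s i)) 0 ^ 5 ≤ 2 ^ Fintype.card ι * (30240 * M4 *
        ∑ k, (x ^ 3 * (A.trace * B k k ^ 2) + x ^ 4 * (A k k * B k k))) := by
  have hB' : (x⁻¹ • B).PosSemidef := hB.smul (inv_pos.2 hx).le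
  have h := lind hA hB' Finset.univ
  simp only [Finset.mem_univ, if_true] at h
  have h2 := (h.trans (add_le_add_left (gauss_case hA hB') _)).trans_eq (zero_add _)
  rw [pi_rad, div_le_iff₀' (by positivity)] at h2
  have e : ∀ y, (qf A y - A.trace) * max (x - qf B y) 0 ^ 5 = x ^ 5 * gg A (x⁻¹ • B) y := fun y => by
    have : max (x - qf B y) 0 = x * max (1 - qf (x⁻¹ • B) y) 0 := by
      rw [mul_max_of_nonneg _ _ hx.le, mul_zero, qf, qf, smul_mulVec, dotProduct_smul, smul_eq_mul,
        mul_sub, mul_one, mul_inv_cancel_left₀ hx.ne']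
    rw [this, gg]
    ring
  simp only [e]
  rw [← Finset.mul_sum]
  refine (mul_le_mul_of_nonneg_left h2 (pow_pos hx 5).le).trans ?_
  rw [mul_left_comm]
  refine mul_le_mul_of_nonneg_left ?_ (by positivity)
  rw [Finset.mul_sum, Finset.mul_sum]
  refine Finset.sum_le_sum fun k _ => ?_
  have a1 : 0 ≤ M4 * (x ^ 4 * (A k k * B k k)) :=
    mul_nonneg (zero_le_one.trans M4_ge) (mul_nonneg (by positivity)
      (mul_nonneg hA.diag_nonneg hB.diag_nonneg))
  have a2 : x ^ 5 * (10080 * M4 * (3 * A.trace * (x⁻¹ • B) k k ^ 2 + 2 * (A k k * (x⁻¹ • B) k k))) =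
      30240 * M4 * (x ^ 3 * (A.trace * B k k ^ 2)) + 20160 * (M4 * (x ^ 4 * (A k k * B k k))) := by
    simp only [Matrix.smul_apply, smul_eq_mul]
    field_simp
    ring
  rw [a2]
  linarith

end Pool.Agent.MP_df0aa7_co.h57

end MrgPart2

-- marker of a merged file
example : 731051 + 138371 = 731051 + 138371 := rfl
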