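import Pool.Agent.MP_df0aa7_co.h57.Key

/-! Truncated determinants of principal submatrices and Schur complements. -/

set_option autoImplicit false

namespace Pool.Agent.MP_df0aa7_co.h57

open Matrix

variable {V : Type} [Fintype V] [DecidableEq V] {x : ℝ} {S : Matrix V V ℝ} {K : Finset V} {v : V}

/-- `x - S` on `H`, the identity outside -/
def pad (x : ℝ) (S : Matrix V V ℝ) (H : Finset V) : Matrix V V ℝ :=
  of fun i j => if i ∈ H ∧ j ∈ H then (if i = j then x else 0) - S i j else if i = j then 1 else 0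

/-- the row of `v`, cut to `K` -/
def rr (S : Matrix V V ℝ) (K : Finset V) (v : V) : V → ℝ := fun u => if u ∈ K then S v u else 0

/-- symmetric with zero diagonal -/
structure Sy (S : Matrix V V ℝ) : Prop where
  symm : ∀ i j, S i j = S j i
  diag : ∀ i, S i i = 0

open Classical in
/-- the truncated determinant -/
noncomputable def D (x : ℝ) (S : Matrix V V ℝ) (H : Finset V) : ℝ :=
  if (pad x S H).PosDef then (pad x S H).det else 0

open Classical in
/-- the truncated resolvent -/
noncomputable def Gi (x : ℝ) (S : Matrix V V ℝ) (H : Finset V) : Matrix V V ℝ :=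
  if (pad x S H).PosDef then (pad x S H)⁻¹ else 0

theorem D_nonneg (x : ℝ) (S : Matrix V V ℝ) (H : Finset V) : 0 ≤ D x S H := by
  unfold D
  split_ifs with h
  exacts [h.det_pos.le, le_rfl]

theorem Gi_psd (x : ℝ) (S : Matrix V V ℝ) (H : Finset V) : (Gi x S H).PosSemidef := by
  unfold Gi
  split_ifs with h
  exacts [h.inv.posSemidef, .zero]

omit [Fintype V] in
theorem pad_herm (h : Sy S) (x : ℝ) (H : Finset V) : (pad x S H).IsHermitian := by
  ext i j
  simp only [conjTranspose_apply, star_trivial, pad, of_apply, h.symm j i, and_comm, eq_comm]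

omit [DecidableEq V] in
theorem pd_iff {M : Matrix V V ℝ} (h : M.IsHermitian) : M.PosDef ↔ ∀ y, y ≠ 0 → 0 < qf M y := by
  rw [posDef_iff_dotProduct_mulVec, and_iff_right h]
  rfl

theorem pad_e (hv : v ∉ K) : pad x S K *ᵥ Pi.single v 1 = Pi.single v 1 := by
  ext i
  simp [pad, hv, Pi.single_apply]

theorem pad_ins (h : Sy S) (hv : v ∉ K) (y : V → ℝ) : pad x S (insert v K) *ᵥ y =
    pad x S K *ᵥ y + ((x - 1) * y v - rr S K v ⬝ᵥ y) • Pi.single v 1 - y v • rr S K v := by
  ext i
  have e : ∀ j, pad x S (insert v K) i j * y j = pad x S K i j * y j +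
      (if j = v then (if i = v then x - 1 else 0) * y j - rr S K v i * y j else 0) -
      (if i = v then rr S K v j * y j else 0) := fun j => by
    by_cases a : i = v <;> by_cases b : j = v
    · simp [pad, rr, a, b, hv, h.diag]
      ring
    · by_cases c : j ∈ K <;> simp [pad, rr, a, b, c, hv, Ne.symm b]
    · by_cases c : i ∈ K <;> simp [pad, rr, a, b, c, hv, h.symm i v]
    · simp [pad, a, b]
  simp only [mulVec, dotProduct, e, Finset.sum_sub_distrib, Finset.sum_add_distrib,
    Finset.sum_ite_eq', Finset.mem_univ, if_true, Pi.sub_apply, Pi.add_apply, Pi.smul_apply,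
    smul_eq_mul, Pi.single_apply]
  split_ifs <;> simp <;> ring

theorem qf_ins (h : Sy S) (hv : v ∉ K) (y : V → ℝ) : qf (pad x S (insert v K)) y =
    qf (pad x S K) y + (x - 1) * y v ^ 2 - 2 * y v * (rr S K v ⬝ᵥ y) := by
  simp only [qf, pad_ins h hv, dotProduct_add, dotProduct_sub, dotProduct_smul, smul_eq_mul,
    dotProduct_single, dotProduct_comm y (rr S K v)]
  ring

theorem pd_sub (h : Sy S) (hv : v ∉ K) (p : (pad x S (insert v K)).PosDef) :
    (pad x S K).PosDef := by
  refine (pd_iff (pad_herm h _ _)).2 fun y hy => ?_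
  have e : y = (y - y v • Pi.single v 1) + y v • Pi.single v 1 := by simp
  have z : (y - y v • Pi.single v 1 : V → ℝ) v = 0 := by simp
  generalize (y - y v • Pi.single v 1 : V → ℝ) = w at e z
  have k := qf_ins (x := x) h hv w
  have n := qf_nonneg p.posSemidef w
  rw [e, qf_add (pad_herm h _ _), bil_symm (pad_herm h _ _), qf, qf, pad_e hv, ← qf]
  simp only [z, dotProduct_single, Pi.single_eq_same, mul_one, mul_zero, zero_mul, ne_eq,
    OfNat.ofNat_ne_zero, not_false_eq_true, zero_pow, add_zero, sub_zero] at k ⊢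
  rcases eq_or_ne w 0 with rfl | c
  · have : y v ≠ 0 := fun c => hy (by simpa [c] using e)
    rw [← k]
    positivity
  · have := (pd_iff p.1).1 p w c
    rw [← k]
    positivity

theorem core (h : Sy S) (hv : v ∉ K) (p : (pad x S K).PosDef) :
    ∃ w : V → ℝ, w v = 1 ∧ pad x S K *ᵥ w = Pi.single v 1 + rr S K v ∧
      rr S K v ⬝ᵥ w = qf (pad x S K)⁻¹ (rr S K v) ∧
      pad x S (insert v K) *ᵥ w = (x - qf (pad x S K)⁻¹ (rr S K v)) • Pi.single v 1 := by
  have u := (isUnit_iff_isUnit_det _).1 p.isUnit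
  have r0 : rr S K v v = 0 := if_neg hv
  have m : pad x S K *ᵥ (pad x S K)⁻¹ *ᵥ rr S K v = rr S K v := by
    rw [mulVec_mulVec, mul_nonsing_inv _ u, one_mulVec]
  have z : ((pad x S K)⁻¹ *ᵥ rr S K v) v = 0 := by
    have := bil_symm p.1 (Pi.single v 1) ((pad x S K)⁻¹ *ᵥ rr S K v)
    rw [m, pad_e hv] at this
    simpa [r0] using this.symm
  have a : pad x S K *ᵥ (Pi.single v 1 + (pad x S K)⁻¹ *ᵥ rr S K v) = Pi.single v 1 + rr S K v := by
    rw [mulVec_add, m, pad_e hv]
  have b : rr S K v ⬝ᵥ (Pi.single v 1 + (pad x S K)⁻¹ *ᵥ rr S K v) = qf (pad x S K)⁻¹ (rr S K v) := by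
    simp [qf, r0]
  have c : (Pi.single v 1 + (pad x S K)⁻¹ *ᵥ rr S K v : V → ℝ) v = 1 := by simp [z]
  refine ⟨_, c, a, b, ?_⟩
  rw [pad_ins h hv, a, b, c]
  module

theorem adj_ins (hv : v ∉ K) : adjugate (pad x S (insert v K)) v v = (pad x S K).det := by
  have k : ∀ M : Matrix V V ℝ, adjugate M v v = (M.updateCol v (Pi.single v 1)).det := fun M => by
    rw [← cramer_apply, cramer_eq_adjugate_mulVec]
    simp
  rw [k, ← updateCol_idem _ v (Pi.single v 1), ← k, adjugate_apply]
  congr 1
  ext i j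
  by_cases a : i = v <;> by_cases b : j = v
  · simp [pad, a, b, hv]
  · simp [pad, a, b, hv, Ne.symm b]
  · simp [pad, a, b, hv]
  · simp [pad, a, b]

theorem det_ins (h : Sy S) (hv : v ∉ K) (p : (pad x S K).PosDef) :
    (pad x S (insert v K)).det = (pad x S K).det * (x - qf (pad x S K)⁻¹ (rr S K v)) := by
  obtain ⟨w, w1, -, -, w4⟩ := core h hv p
  have := congrArg (fun y => (adjugate (pad x S (insert v K)) *ᵥ y) v) w4
  simp only [mulVec_mulVec, adjugate_mul, smul_mulVec, one_mulVec, mulVec_smul, Pi.smul_apply,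
    w1, smul_eq_mul, mul_one, mulVec_single_one, col_apply, adj_ins hv] at this
  rw [this, mul_comm]

theorem pd_ins (h : Sy S) (hv : v ∉ K) (p : (pad x S K).PosDef)
    (a : 0 < x - qf (pad x S K)⁻¹ (rr S K v)) : (pad x S (insert v K)).PosDef := by
  obtain ⟨w, w1, w2, w3, -⟩ := core h hv p
  refine (pd_iff (pad_herm h _ _)).2 fun y hy => ?_
  have r0 : rr S K v v = 0 := if_neg hv
  have e : qf (pad x S (insert v K)) y =
      qf (pad x S K) (y + (-y v) • w) + (x - qf (pad x S K)⁻¹ (rr S K v)) * y v ^ 2 := by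
    rw [qf_ins h hv, qf_add p.1, bil_symm p.1,
      show qf (pad x S K) w = w ⬝ᵥ pad x S K *ᵥ w from rfl, w2, ← w3]
    simp only [dotProduct_add, dotProduct_single, w1, dotProduct_comm _ (rr S K v)]
    ring
  rw [e]
  rcases eq_or_ne (y v) 0 with c | c
  · simpa [c] using (pd_iff p.1).1 p y hy
  · have := qf_nonneg p.posSemidef (y + (-y v) • w)
    positivity

theorem schur (h : Sy S) (hv : v ∉ K) :
    D x S (insert v K) = D x S K * max (x - qf (Gi x S K) (rr S K v)) 0 := by
  by_cases p : (pad x S K).PosDef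
  · rw [D, D, Gi, if_pos p, if_pos p]
    split_ifs with c
    · have := c.det_pos
      rw [det_ins h hv p] at this ⊢
      rw [max_eq_left ((mul_pos_iff_of_pos_left p.det_pos).1 this).le]
    · rw [max_eq_right (not_lt.1 fun a => c (pd_ins h hv p a)), mul_zero]
  · rw [D, D, if_neg p, if_neg fun c => p (pd_sub h hv c), zero_mul]

theorem D_Gi (h : Sy S) (hv : v ∈ K) : D x S K * Gi x S K v v ≤ D x S (K.erase v) := by
  have n := K.notMem_erase v
  by_cases p : (pad x S K).PosDef
  · have q := pd_sub h n ((Finset.insert_erase hv).symm ▸ p)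
    have a := adj_ins (x := x) (S := S) n
    rw [Finset.insert_erase hv] at a
    rw [D, D, Gi, if_pos p, if_pos p, if_pos q, inv_def, Matrix.smul_apply, a, Ring.inverse_eq_inv',
      smul_eq_mul, mul_inv_cancel_left₀ p.det_pos.ne']
  · rw [D, if_neg p, zero_mul]
    exact D_nonneg _ _ _

theorem D_empty (x : ℝ) (S : Matrix V V ℝ) : D x S ∅ = 1 := by
  have : pad x S ∅ = 1 := by
    ext i j
    simp [pad, one_apply]
  rw [D, this, if_pos .one, det_one]

end Pool.Agent.MP_df0aa7_co.h57
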